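import Pool.Agent.W262.SH.Stm
import Pool.Agent.W22.RK.Loc

/-! SH-LOCX (helper782): from a point over an algebraic closure of the p-adic numbers to `LocSol`. -/

set_option autoImplicit false

namespace Pool.Agent.W782.SH

open WeierstrassCurve Pool.Agent.W262.RK Pool.Agent.W262.SH
open scoped Classical

theorem isW (A B : ℤ) (L : Type) [Field L] [Algebra ℚ L] :
    IsW ((E A B).baseChange L) (A : L) (B : L) := by
  refine ⟨?_, ?_, ?_, ?_, ?_⟩
  · simp [WeierstrassCurve.baseChange, E]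
  · change algebraMap ℚ L (-((A : ℚ) + B)) = _
    rw [map_neg, map_add, map_intCast, map_intCast]
  · simp [WeierstrassCurve.baseChange, E]
  · change algebraMap ℚ L ((A : ℚ) * B) = _
    rw [map_mul, map_intCast, map_intCast]
  · simp [WeierstrassCurve.baseChange, E]

section
variable {K : Type} [Field K] {W : WeierstrassCurve K} {a b : K}

theorem eqn (h : IsW W a b) {x y : K} (he : W.toAffine.Equation x y) :
    y ^ 2 = x * (x - a) * (x - b) := by
  obtain ⟨h1, h2, h3, h4, h5⟩ := h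
  rw [Affine.equation_iff] at he
  rw [h1, h2, h3, h4, h5] at he
  linear_combination he

theorem nons (h : IsW W a b) [CharZero K] {x y : K} (hy : y ≠ 0)
    (he : y ^ 2 = x * (x - a) * (x - b)) : W.toAffine.Nonsingular x y := by
  obtain ⟨h1, h2, h3, h4, h5⟩ := h
  rw [Affine.nonsingular_iff, Affine.equation_iff, h1, h2, h3, h4, h5]
  refine ⟨by linear_combination he, Or.inr ?_⟩
  intro h
  have h2 : (2 : K) * y = 0 := by linear_combination h
  exact hy ((mul_eq_zero.1 h2).resolve_left two_ne_zero)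

theorem negY (h : IsW W a b) (x y : K) : W.toAffine.negY x y = -y := by
  obtain ⟨h1, h2, h3, h4, h5⟩ := h
  rw [Affine.negY, h1, h3]
  ring

theorem y_zero (h : IsW W a b) [CharZero K] {x y : K} {hns : W.toAffine.Nonsingular x y}
    (h2 : (Affine.Point.some x y hns : W.toAffine.Point) + .some x y hns = 0) : y = 0 := by
  rw [add_eq_zero_iff_eq_neg, Affine.Point.neg_some] at h2
  injection h2 with h3 h4
  rw [negY h] at h4
  have h5 : (2 : K) * y = 0 := by linear_combination h4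
  exact (mul_eq_zero.1 h5).resolve_left two_ne_zero

theorem of_y_zero (h : IsW W a b) {x y : K} {hns : W.toAffine.Nonsingular x y}
    (hy : y = 0) : (Affine.Point.some x y hns : W.toAffine.Point) + .some x y hns = 0 := by
  rw [add_eq_zero_iff_eq_neg, Affine.Point.neg_some]
  congr 1
  rw [negY h, hy, neg_zero]

/-- the abscissa -/
def abs (W : WeierstrassCurve K) : W.toAffine.Point → Option K
  | 0 => none
  | .some x _ _ => some x

theorem tors_fin (h : IsW W a b) [CharZero K] : {Q : W.toAffine.Point | Q + Q = 0}.Finite := by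
  refine Set.Finite.of_injOn (f := abs W) (t := {none, some 0, some a, some b}) ?_ ?_
    (Set.toFinite _)
  · intro Q hQ
    rcases Q with _ | ⟨x, y, hns⟩
    · left; rfl
    · have hy := y_zero h hQ
      have he := eqn h hns.1
      rw [hy] at he
      have h0 : x * (x - a) * (x - b) = 0 := by rw [← he]; ring
      change some x ∈ _
      rcases mul_eq_zero.1 h0 with h1 | h1
      · rcases mul_eq_zero.1 h1 with h1 | h1
        · rw [h1]; simp
        · rw [sub_eq_zero.1 h1]; simp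
      · rw [sub_eq_zero.1 h1]; simp
  · intro Q hQ Q' hQ' hQQ
    rcases Q with _ | ⟨x, y, hns⟩
    · rcases Q' with _ | ⟨x', y', hns'⟩
      · rfl
      · exact absurd hQQ (by change none ≠ some x'; simp)
    · rcases Q' with _ | ⟨x', y', hns'⟩
      · exact absurd hQQ (by change some x ≠ none; simp)
      · have h1 : x = x' := Option.some.inj hQQ
        have h2 : y = y' := by rw [y_zero h hQ, y_zero h hQ']
        subst h1
        subst h2
        rfl

theorem four_fin (h : IsW W a b) [CharZero K] :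
    {Q : W.toAffine.Point | Q + Q + (Q + Q) = 0}.Finite := by
  refine Set.Finite.preimage' (f := fun Q : W.toAffine.Point => Q + Q) (tors_fin h) ?_
  intro P _
  by_cases hne : ∃ Q0 : W.toAffine.Point, Q0 + Q0 = P
  · obtain ⟨Q0, hQ0⟩ := hne
    refine Set.Finite.of_injOn (f := fun Q => Q - Q0) (t := {Q | Q + Q = 0}) ?_ ?_ (tors_fin h)
    · intro Q hQ
      have hQ' : Q + Q = P := hQ
      change Q - Q0 + (Q - Q0) = 0
      rw [sub_add_sub_comm, hQ', hQ0, sub_self]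
    · intro Q _ Q' _ hQQ
      exact sub_left_injective hQQ
  · refine Set.Finite.subset Set.finite_empty ?_
    intro Q hQ
    exact hne ⟨Q, hQ⟩

end

theorem norm_lt (p : ℕ) [hp : Fact p.Prime] (A : ℤ) (k : ℕ) :
    ‖-((A : ℚ_[p]) * (p : ℚ_[p]) ^ (2 * (k + 1)))‖ < 1 := by
  rw [norm_neg, norm_mul, norm_pow]
  have h1 : ‖(A : ℚ_[p])‖ ≤ 1 := Padic.norm_int_le_one A
  have h2 : ‖(p : ℚ_[p])‖ < 1 := Padic.norm_p_lt_one
  calc ‖(A : ℚ_[p])‖ * ‖(p : ℚ_[p])‖ ^ (2 * (k + 1))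
      ≤ 1 * ‖(p : ℚ_[p])‖ ^ (2 * (k + 1)) := mul_le_mul_of_nonneg_right h1 (by positivity)
    _ < 1 := by
      rw [one_mul]
      exact pow_lt_one₀ (norm_nonneg _) h2 (by omega)

theorem one_add_ne {p : ℕ} [hp : Fact p.Prime] {r : ℚ_[p]} (h : ‖r‖ < 1) : 1 + r ≠ 0 := by
  intro h0
  have : r = -1 := by linear_combination h0
  rw [this, norm_neg, norm_one] at h
  exact lt_irrefl _ h

theorem shift (p : ℕ) [hp : Fact p.Prime] (hp2 : p ≠ 2) {Ω : Type} [Field Ω] [Algebra ℚ Ω]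
    [CharZero Ω] (φ : ℚ_[p] →ₐ[ℚ] Ω) (A B : ℤ) (R : Pt (E A B) Ω) :
    ∃ S0 : Pt (E A B) ℚ_[p], (R + act (E A B) φ S0) + (R + act (E A B) φ S0) +
      ((R + act (E A B) φ S0) + (R + act (E A B) φ S0)) ≠ 0 := by
  have hW := isW A B Ω
  have hWp := isW A B ℚ_[p]
  have hp0 : (p : ℚ_[p]) ≠ 0 := by exact_mod_cast hp.out.ne_zero
  have hpt : ∀ k : ℕ, ∃ (v : ℚ_[p]), ((E A B).baseChange ℚ_[p]).toAffine.Nonsingular
      (((p : ℚ_[p]) ^ (2 * (k + 1)))⁻¹) v := by
    intro k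
    obtain ⟨z, hz⟩ := Pool.Agent.W22.RK.isSquare_one_add hp2 _ (norm_lt p A k)
    obtain ⟨w, hw⟩ := Pool.Agent.W22.RK.isSquare_one_add hp2 _ (norm_lt p B k)
    have hz0 := one_add_ne (norm_lt p A k)
    have hw0 := one_add_ne (norm_lt p B k)
    rw [hz] at hz0
    rw [hw] at hw0
    refine ⟨z * w * ((p : ℚ_[p]) ^ (3 * (k + 1)))⁻¹, nons hWp ?_ ?_⟩
    · exact mul_ne_zero (mul_ne_zero (left_ne_zero_of_mul hz0) (left_ne_zero_of_mul hw0))
        (inv_ne_zero (pow_ne_zero _ hp0))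
    · have hq : (p : ℚ_[p]) ^ (k + 1) ≠ 0 := pow_ne_zero _ hp0
      have e2 : (p : ℚ_[p]) ^ (2 * (k + 1)) = ((p : ℚ_[p]) ^ (k + 1)) ^ 2 := by
        rw [mul_comm, pow_mul]
      have e3 : (p : ℚ_[p]) ^ (3 * (k + 1)) = ((p : ℚ_[p]) ^ (k + 1)) ^ 3 := by
        rw [mul_comm, pow_mul]
      rw [e2] at hz hw ⊢
      rw [e3]
      set q : ℚ_[p] := (p : ℚ_[p]) ^ (k + 1)
      have hz' : z ^ 2 = 1 - A * q ^ 2 := by rw [pow_two, ← hz]; ring
      have hw' : w ^ 2 = 1 - B * q ^ 2 := by rw [pow_two, ← hw]; ring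
      have : (z * w * (q ^ 3)⁻¹) ^ 2 = z ^ 2 * w ^ 2 * ((q ^ 3)⁻¹) ^ 2 := by ring
      rw [this, hz', hw']
      field_simp
  choose v hv using hpt
  let S : ℕ → Pt (E A B) ℚ_[p] := fun k => .some _ (v k) (hv k)
  have hinj : Function.Injective fun k => R + act (E A B) φ (S k) := by
    intro k l hkl
    have h1 := add_left_cancel hkl
    have h2 := Affine.Point.map_injective (f := φ) h1
    injection h2 with h3 h4
    have h5 := inv_injective h3
    by_contra hne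
    have h6 := congrArg (fun z => ‖z‖) h5
    simp only [norm_pow] at h6
    have h7 : ‖(p : ℚ_[p])‖ < 1 := Padic.norm_p_lt_one
    have h8 : 0 < ‖(p : ℚ_[p])‖ := norm_pos_iff.2 hp0
    have h9 := (pow_right_injective₀ h8 h7.ne) h6
    omega
  by_contra hcon
  push Not at hcon
  have : (Set.univ : Set ℕ).Finite :=
    Set.Finite.of_injOn (f := fun k => R + act (E A B) φ (S k))
      (t := {Q | Q + Q + (Q + Q) = 0}) (fun k _ => hcon (S k)) (hinj.injOn) (four_fin hW)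
  exact Set.infinite_univ this

theorem locx (hD : DUP) : LOCX := by
  intro p hpf hp2 Ω _ _ _ _ _ _ A B hA hB hAB e1 e2 he1 he2 s1 s2 hs1 hs2 R hR
  have hcz : CharZero Ω := charZero_of_injective_algebraMap (algebraMap ℚ Ω).injective
  obtain ⟨φ, hφ⟩ : ∃ φ : ℚ_[p] →ₐ[ℚ] Ω, ∀ x, φ x = algebraMap ℚ_[p] Ω x :=
    ⟨(Algebra.ofId ℚ_[p] Ω).restrictScalars ℚ, fun x => rfl⟩
  have hW := isW A B Ω
  have hAΩ : (A : Ω) ≠ 0 := by exact_mod_cast hA
  have hBΩ : (B : Ω) ≠ 0 := by exact_mod_cast hB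
  have hABΩ : (A : Ω) ≠ B := by exact_mod_cast hAB
  obtain ⟨S0, hS0⟩ := shift p hp2 φ A B R
  have hR' : ∀ τ : Ω ≃ₐ[ℚ_[p]] Ω, ∃ T : Pt (E A B) Ω, T + T = 0 ∧
      act (E A B) (τ.toAlgHom.restrictScalars ℚ) (R + act (E A B) φ S0) =
        (R + act (E A B) φ S0) + T ∧
      (τ s1 = s1 ↔ IsX ((E A B).baseChange Ω) 0 T) ∧
      (τ s2 = s2 ↔ IsX ((E A B).baseChange Ω) (A : Ω) T) := by
    intro τ
    obtain ⟨T, h1, h2, h3, h4⟩ := hR τ
    refine ⟨T, h1, ?_, h3, h4⟩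
    have h5 : act (E A B) (τ.toAlgHom.restrictScalars ℚ) (act (E A B) φ S0) =
        act (E A B) φ S0 := by
      have h6 : (τ.toAlgHom.restrictScalars ℚ).comp φ = φ := by
        ext x
        change τ (φ x) = φ x
        rw [hφ]
        exact τ.commutes x
      have h7 : act (E A B) (τ.toAlgHom.restrictScalars ℚ) (act (E A B) φ S0) =
          act (E A B) ((τ.toAlgHom.restrictScalars ℚ).comp φ) S0 :=
        Affine.Point.map_map (f := φ) (g := τ.toAlgHom.restrictScalars ℚ) S0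
      rw [h7, h6]
    rw [map_add, h2, h5]
    abel
  obtain ⟨R', hR'eq⟩ : ∃ R' : Pt (E A B) Ω, R' = R + act (E A B) φ S0 := ⟨_, rfl⟩
  rw [← hR'eq] at hR' hS0
  clear hR'eq
  rcases R' with _ | ⟨u, v, hns⟩
  · exact absurd (by
      change (0 : Pt (E A B) Ω) + 0 + (0 + 0) = 0
      simp) hS0
  have hv : v ≠ 0 := by
    intro hv
    apply hS0
    rw [of_y_zero hW hv, add_zero]
  obtain ⟨⟨x, y, hxy, h2R, hx0, hxA⟩, htr⟩ := hD Ω _ (A : Ω) (B : Ω) hW hAΩ hBΩ hABΩ u v hns hv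
  have hy : y ≠ 0 := by
    intro hy
    apply hS0
    rw [h2R]
    exact of_y_zero hW hy
  have heq := eqn hW hxy.1
  -- the action on the functions
  have hgg : ∀ (τ : Ω ≃ₐ[ℚ_[p]] Ω) (e c : Ω), τ e = e → τ c = c →
      gg ((E A B).baseChange Ω) e c (act (E A B) (τ.toAlgHom.restrictScalars ℚ)
        (.some u v hns)) = τ (gg ((E A B).baseChange Ω) e c (.some u v hns)) := by
    intro τ e c he hc
    change ((τ u - e) ^ 2 - c) / (2 * τ v) = τ (((u - e) ^ 2 - c) / (2 * v))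
    rw [map_div₀, map_sub, map_pow, map_sub, map_mul, he, hc, map_ofNat]
  have hsgn : ∀ (τ : Ω ≃ₐ[ℚ_[p]] Ω) (s : Ω) (e : ℤ), s ^ 2 = e → τ s ≠ s → τ s = -s := by
    intro τ s e hs hne
    have h1 : (τ s) ^ 2 = s ^ 2 := by rw [← map_pow, hs, map_intCast]
    rcases sq_eq_sq_iff_eq_or_eq_neg.1 h1 with h | h
    · exact absurd h hne
    · exact h
  have hfix0 : ∀ τ : Ω ≃ₐ[ℚ_[p]] Ω,
      τ (gg ((E A B).baseChange Ω) 0 ((A : Ω) * B) (.some u v hns) * s1) =
        gg ((E A B).baseChange Ω) 0 ((A : Ω) * B) (.some u v hns) * s1 := by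
    intro τ
    obtain ⟨T, hT, h1, h2, h3⟩ := hR' τ
    obtain ⟨-, h4, h5, -, -⟩ := htr T hT
    rw [map_mul, ← hgg τ 0 _ (map_zero _) (by rw [map_mul, map_intCast, map_intCast]), h1]
    by_cases hX : IsX ((E A B).baseChange Ω) 0 T
    · rw [h4 hX, h2.2 hX]
    · rw [h5 hX, hsgn τ s1 e1 hs1 (fun h => hX (h2.1 h))]
      ring
  have hfixA : ∀ τ : Ω ≃ₐ[ℚ_[p]] Ω,
      τ (gg ((E A B).baseChange Ω) A ((A : Ω) * (A - B)) (.some u v hns) * s2) =
        gg ((E A B).baseChange Ω) A ((A : Ω) * (A - B)) (.some u v hns) * s2 := by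
    intro τ
    obtain ⟨T, hT, h1, h2, h3⟩ := hR' τ
    obtain ⟨-, -, -, h4, h5⟩ := htr T hT
    rw [map_mul, ← hgg τ _ _ (map_intCast _ _)
      (by rw [map_mul, map_sub, map_intCast, map_intCast]), h1]
    by_cases hX : IsX ((E A B).baseChange Ω) (A : Ω) T
    · rw [h4 hX, h3.2 hX]
    · rw [h5 hX, hsgn τ s2 e2 hs2 (fun h => hX (h3.1 h))]
      ring
  have hfixy : ∀ τ : Ω ≃ₐ[ℚ_[p]] Ω, τ y = y := by
    intro τ
    obtain ⟨T, hT, h1, h2, h3⟩ := hR' τ
    have h4 : act (E A B) (τ.toAlgHom.restrictScalars ℚ) (.some x y hxy) = .some x y hxy := by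
      rw [← h2R, map_add, h1, add_add_add_comm, hT, add_zero]
    have h5 : (Affine.Point.some (τ x) (τ y) _ : ((E A B).baseChange Ω).toAffine.Point) =
      .some x y hxy := h4
    injection h5
  have hgal : IsGalois ℚ_[p] Ω := by
    have : IsAlgClosure ℚ_[p] Ω := ⟨inferInstance, inferInstance⟩
    infer_instance
  obtain ⟨c0, hc0⟩ := (InfiniteGalois.mem_range_algebraMap_iff_fixed _).2 hfix0
  obtain ⟨cA, hcA⟩ := (InfiniteGalois.mem_range_algebraMap_iff_fixed _).2 hfixA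
  obtain ⟨y0, hy0⟩ := (InfiniteGalois.mem_range_algebraMap_iff_fixed _).2 hfixy
  have hainj : Function.Injective (algebraMap ℚ_[p] Ω) := (algebraMap ℚ_[p] Ω).injective
  have he1p : (e1 : ℚ_[p]) ≠ 0 := by exact_mod_cast he1
  have he2p : (e2 : ℚ_[p]) ≠ 0 := by exact_mod_cast he2
  have he1Ω : (e1 : Ω) ≠ 0 := by exact_mod_cast he1
  obtain ⟨X, hX⟩ : ∃ X : ℚ_[p], X = c0 ^ 2 / e1 := ⟨_, rfl⟩
  have hXx : algebraMap ℚ_[p] Ω X = x := by
    rw [hX, map_div₀, map_pow, hc0, map_intCast, mul_pow, hs1, ← hx0]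
    field_simp
  have hX1 : X * e1 = c0 ^ 2 := by rw [hX]; field_simp
  have hX2 : (X - A) * e2 = cA ^ 2 := by
    apply hainj
    rw [map_mul, map_sub, hXx, map_intCast, map_intCast, map_pow, hcA, mul_pow, hs2, ← hxA]
  have hX3 : y0 ^ 2 = X * (X - A) * (X - B) := by
    apply hainj
    rw [map_pow, hy0, heq, map_mul, map_mul, map_sub, map_sub, hXx, map_intCast, map_intCast]
  have hy00 : y0 ≠ 0 := by
    rintro rfl
    rw [map_zero] at hy0
    exact hy hy0.symm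
  have hne : X * (X - A) * (X - B) ≠ 0 := by
    rw [← hX3]
    exact pow_ne_zero _ hy00
  have hXB : X - B ≠ 0 := right_ne_zero_of_mul hne
  have hXA : X - A ≠ 0 := right_ne_zero_of_mul (left_ne_zero_of_mul hne)
  have hX0 : X ≠ 0 := left_ne_zero_of_mul (left_ne_zero_of_mul hne)
  have hc00 : c0 ≠ 0 := by
    rintro rfl
    rw [zero_pow two_ne_zero] at hX1
    exact (mul_ne_zero hX0 he1p) hX1
  have hcA0 : cA ≠ 0 := by
    rintro rfl
    rw [zero_pow two_ne_zero] at hX2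
    exact (mul_ne_zero hXA he2p) hX2
  have hX4 : (X - B) * (e1 * e2) = (y0 * e1 * e2 / (c0 * cA)) ^ 2 := by
    have e5 : (c0 * cA) ^ 2 = (X * e1) * ((X - A) * e2) := by rw [mul_pow, ← hX1, ← hX2]
    rw [div_pow, e5, mul_pow, mul_pow, hX3]
    field_simp
  -- approximation
  obtain ⟨xr, hxr⟩ := Padic.rat_dense p X (ε := min ‖X‖ (min ‖X - A‖ ‖X - B‖))
    (lt_min (norm_pos_iff.2 hX0) (lt_min (norm_pos_iff.2 hXA) (norm_pos_iff.2 hXB)))
  have key : ∀ D f : ℚ_[p], X - D ≠ 0 → ‖X - xr‖ < ‖X - D‖ → IsSquare ((X - D) * f) →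
      (xr : ℚ_[p]) - D ≠ 0 ∧ IsSquare (((xr : ℚ_[p]) - D) * f) := by
    intro D f hD0 hlt hsq
    have hr : ‖((xr : ℚ_[p]) - X) / (X - D)‖ < 1 := by
      rw [norm_div, div_lt_one (norm_pos_iff.2 hD0), ← norm_neg, neg_sub]
      exact hlt
    have e : (xr : ℚ_[p]) - D = (X - D) * (1 + ((xr : ℚ_[p]) - X) / (X - D)) := by
      field_simp
      ring
    refine ⟨?_, ?_⟩
    · rw [e]
      exact mul_ne_zero hD0 (one_add_ne hr)
    · have e' : ((xr : ℚ_[p]) - D) * f = ((X - D) * f) * (1 + ((xr : ℚ_[p]) - X) / (X - D)) := by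
        rw [e]; ring
      rw [e']
      exact hsq.mul (Pool.Agent.W22.RK.isSquare_one_add hp2 _ hr)
  obtain ⟨k1, k2⟩ := key 0 e1 (by rwa [sub_zero])
    (by rw [sub_zero]; exact hxr.trans_le (min_le_left _ _))
    ⟨c0, by rw [sub_zero, hX1, pow_two]⟩
  obtain ⟨k3, k4⟩ := key A e2 hXA (hxr.trans_le ((min_le_right _ _).trans (min_le_left _ _)))
    ⟨cA, by rw [hX2, pow_two]⟩
  obtain ⟨k5, k6⟩ := key B (e1 * e2) hXB
    (hxr.trans_le ((min_le_right _ _).trans (min_le_right _ _)))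
    ⟨_, by rw [hX4, pow_two]⟩
  rw [sub_zero] at k1 k2
  refine ⟨xr, ?_, ?_, ?_, ?_, ?_, ?_⟩
  · rintro rfl
    exact k1 (by simp)
  · rintro rfl
    exact k3 (by simp)
  · rintro rfl
    exact k5 (by simp)
  · push_cast
    exact k2
  · push_cast
    exact k4
  · push_cast
    exact k6

end Pool.Agent.W782.SH
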